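import Mathlib
import Pool.Agent.Helper172.HD.Defs
import Pool.Agent.Helper172.HD.Bridge

/-!
The bimodule `(A × A)^h_*` need not be injective.

For a von Neumann algebra `A`, let `(A × A)^h_*` be the Banach `A`-bimodule of the separately
weak*-continuous bilinear forms on `A × A` which are bounded for the Haagerup norm.  We show that
for `A = ∏_N M_{N+1}(L(F_∞))` (acting on `⊕_N ℂ^{N+1} ⊗ ℓ²(F_∞)`) this bimodule is not injective
in the relative sense.

Outline.  If a Banach `A`-bimodule `J` is injective, extend the identity of `J` along
`J → B(A, J)`, `f ↦ (a ↦ a·f)`; composing the extension with `f ↦ (a ↦ f·a)` gives a bounded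
projection `E` of `J` onto its centre `{f : a·f = f·a}`.  For `J = (A × A)^h_*` and a block
`M_n(L(F_∞))` with trace vectors `ω_i`, the forms `f_T(x, y) = (1/n) ∑ ⟨x T y ω_i, ω_i⟩`
(`T` any operator) are mapped to central forms `E f_T`, and `f_T` is central when `T ∈ A`, by
the trace property.  Writing the generators of the free group as `g_k = c_k + r_k` with
`c_k* c_l = 0`, `r_k r_l* = 0` (`k ≠ l`), and testing `E f_T` on suitable sums over matrix
units, one finds `√n ≤ 2 ‖E‖`, which is impossible for large `n`.
-/

set_option autoImplicit false

namespace Pool.Agent.Results.MP_86326a_an.HaagerupDualNotInjective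

open Pool.Agent.Helper172

/-- It is not true that `(A × A)^h_*` is injective for every von Neumann algebra `A`. -/
theorem result : ¬ ∀ (H : Type) [NormedAddCommGroup H] [InnerProductSpace ℂ H]
    [CompleteSpace H] (A : VonNeumannAlgebra H), HDS.HaagerupDualInjective A :=
  fun h => HD.not_haagerupDualInjective (h _ HD.exA)

end Pool.Agent.Results.MP_86326a_an.HaagerupDualNotInjective
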